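import Pool.Agent.H.MP_4b0054_an.A
set_option autoImplicit false

namespace Pool.Agent.Results.MP_4b0054_an.No
open Pool.Agent.H.MP_1a7c10_an Filter Topology

/-- `J : X → Y` is a Banach envelope map of `(X, N)`. -/
def IsEnvelope {X : Type} [AddCommGroup X] [Module ℝ X] (N : X → ℝ) {Y : Type}
    [NormedAddCommGroup Y] [NormedSpace ℝ Y] (J : X →ₗ[ℝ] Y) : Prop :=
  (∀ x, ‖J x‖ ≤ N x) ∧
  ∀ (Z : Type) [NormedAddCommGroup Z] [NormedSpace ℝ Z] [CompleteSpace Z] (T : X →ₗ[ℝ] Z),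
    (∀ x, ‖T x‖ ≤ N x) → ∃ S : Y →ₗ[ℝ] Z, (∀ y, ‖S y‖ ≤ ‖y‖) ∧ ∀ x, S (J x) = T x

/-- The Schur property. -/
def Schur (Y : Type) [NormedAddCommGroup Y] [NormedSpace ℝ Y] : Prop :=
  ∀ y : ℕ → Y, (∀ φ : Y →L[ℝ] ℝ, Tendsto (fun n => φ (y n)) atTop (𝓝 0)) →
    Tendsto (fun n => ‖y n‖) atTop (𝓝 0)

theorem result (p : ℝ) (hp0 : 0 < p) (hp1 : p < 1) :
    ∃ (X : Type) (_ : AddCommGroup X) (_ : Module ℝ X) (N : X → ℝ),
      IsPBanach ℝ p X N ∧ SchurP ℝ p N ∧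
      (∃ (Y : Type) (_ : NormedAddCommGroup Y) (_ : NormedSpace ℝ Y) (_ : CompleteSpace Y)
        (J : X →ₗ[ℝ] Y), IsEnvelope N J) ∧
      ∀ (Y : Type) [NormedAddCommGroup Y] [NormedSpace ℝ Y] [CompleteSpace Y] (J : X →ₗ[ℝ] Y),
        IsEnvelope N J → ¬ Schur Y := by
  obtain ⟨X, _, _, _, L, hom, H, hd, hf⟩ :=
    Pool.Agent.H.MP_4b0054_an.exists_free hp0 hp1.le (0 : ℝ)
  have hB := isPBanach_of_normed (𝕜 := ℝ) hp0 X hom
  refine ⟨X, inferInstance, inferInstance, fun y => ‖y‖ ^ (1 / p), hB, ?_, ?_, ?_⟩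
  · refine Pool.Agent.H.MP_a71740_an.schurP_of (o := (0:ℝ)) hp0 hp1 hB L
      (by simpa only [inv1 hp0 (norm_nonneg _)] using H) (fun w η hη => ?_)
    obtain ⟨v, hv⟩ := hd w (η ^ p) (by positivity)
    exact ⟨v, (lt3 hp0 (norm_nonneg _) hη).mpr hv⟩
  · let Φ := {φ : X →ₗ[ℝ] ℝ // ∀ x, |φ x| ≤ ‖x‖ ^ (1 / p)}
    letI : TopologicalSpace Φ := ⊥
    haveI : DiscreteTopology Φ := ⟨rfl⟩
    let J0 : X →ₗ[ℝ] BoundedContinuousFunction Φ ℝ :=
      { toFun := fun x => BoundedContinuousFunction.ofNormedAddCommGroupDiscrete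
          (fun φ => φ.1 x) (‖x‖ ^ (1 / p)) (fun φ => φ.2 x)
        map_add' := fun a b => by ext φ; exact φ.1.map_add a b
        map_smul' := fun t a => by ext φ; exact φ.1.map_smul t a }
    obtain ⟨V, _, _, _, J, hJ, hJ'⟩ := Pool.Agent.H.MP_4b0054_an.dense_restrict J0
    refine ⟨V, inferInstance, inferInstance, inferInstance, J, fun x => ?_, ?_⟩
    · rw [hJ']
      exact (BoundedContinuousFunction.norm_le (by positivity)).mpr (fun φ => φ.2 x)
    · intro Z _ _ _ T hT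
      have hb : ∀ x, ‖T x‖ ≤ 1 * ‖J x‖ := by
        intro x
        obtain ⟨g, g1, g2⟩ := exists_dual_vector'' ℝ (T x)
        let φ : Φ := ⟨g.toLinearMap.comp T, fun u => by
          have := g.le_opNorm (T u)
          have := mul_le_mul g1 (hT u) (norm_nonneg _) zero_le_one
          rw [← Real.norm_eq_abs]
          simp only [LinearMap.comp_apply, ContinuousLinearMap.coe_coe]
          linarith⟩
        have a1 : ‖J0 x φ‖ ≤ ‖J0 x‖ := BoundedContinuousFunction.norm_coe_le_norm _ _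
        have a2 : J0 x φ = ‖T x‖ := g2
        rw [a2, norm_norm] at a1
        rw [one_mul, hJ']; exact a1
      exact ⟨(T.extendOfNorm J).toLinearMap,
        fun y => by simpa using LinearMap.norm_extendOfNorm_apply_le hJ 1 hb y,
        fun x => LinearMap.extendOfNorm_eq hJ ⟨1, hb⟩ x⟩
  · rintro Y _ _ _ J ⟨j1, j2⟩ hS
    let d : ℝ → X := fun x => L (Finsupp.single x 1)
    let r : ℕ → X := fun n => ∑ k ∈ Finset.range (2 ^ n),
      ((2:ℝ) • d ((2 * k + 1) / 2 ^ (n + 1)) - d (k / 2 ^ n) - d ((k + 1) / 2 ^ n))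
    have hr : ∀ (ψ : X →ₗ[ℝ] ℝ) n, ψ (r n) = Pool.Agent.H.MP_4b0054_an.sn (fun x => ψ (d x)) n := by
      intro ψ n
      simp [r, Pool.Agent.H.MP_4b0054_an.sn]
    have h1 := hS (fun n => J (r n)) (fun φ => by
      have := Pool.Agent.H.MP_4b0054_an.sn_tendsto (fun x => φ (J (d x))) ‖φ‖ (fun x y => by
        rw [← map_sub, ← map_sub, ← Real.norm_eq_abs]
        refine (φ.le_opNorm _).trans (mul_le_mul_of_nonneg_left ((j1 _).trans ?_) (norm_nonneg _))
        have a1 := H.iso x y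
        rw [map_sub] at a1
        have a2 := Real.rpow_le_rpow (norm_nonneg _) a1 (by positivity : 0 ≤ 1 / p)
        rwa [inv2 hp0 dist_nonneg] at a2)
      exact this.congr (fun n => (hr (φ.toLinearMap.comp J) n).symm))
    obtain ⟨n, hn⟩ := (h1.eventually (gt_mem_nhds
      (show 0 < 2 / Real.pi by have := Real.pi_pos; positivity))).exists
    obtain ⟨f, f0, f1, f2⟩ := Pool.Agent.H.MP_4b0054_an.sn_test n
    obtain ⟨φ, φ1, φ2⟩ := hf f f0 f1
    obtain ⟨S, s1, s2⟩ := j2 ℝ φ (fun x => by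
      have := Real.rpow_le_rpow (by positivity) (φ2 x) (by positivity : 0 ≤ 1 / p)
      rwa [inv2 hp0 (abs_nonneg _)] at this)
    have a1 := s1 (J (r n))
    rw [s2, hr, show (fun x => φ (d x)) = f from funext φ1, f2] at a1
    have := le_abs_self (2 / Real.pi)
    rw [Real.norm_eq_abs] at a1
    linarith

end Pool.Agent.Results.MP_4b0054_an.No
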